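import Mathlib

/-! Extension of maps, a dimension count, and integer-indexed homogeneous components. -/

set_option autoImplicit false

namespace Pool.Agent.MP_92f1cb_al.H22G

/-- Maps to `A` defined on the kernel of a map to `A` extend. -/
def Extends (A : Type) [Ring A] : Prop :=
  ∀ (F : Type) [AddCommGroup F] [Module A F] (q : F →ₗ[A] A) (g : LinearMap.ker q →ₗ[A] A),
    ∃ G : F →ₗ[A] A, ∀ x : LinearMap.ker q, G x = g x

theorem extends_of_inj {A : Type} [Ring A] {I : Type} [AddCommGroup I] [Module A I]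
    (f : A →ₗ[A] I) (hf : Function.Injective f) (h0 : Module.Injective A I)
    (h1 : Module.Injective A (I ⧸ LinearMap.range f)) : Extends A := by
  intro F _ _ q g
  obtain ⟨G, hG⟩ := h0.out (LinearMap.ker q).subtype (Submodule.injective_subtype _) (f ∘ₗ g)
  have hle : LinearMap.ker q ≤ LinearMap.ker ((LinearMap.range f).mkQ ∘ₗ G) := by
    intro x hx
    have h2 := hG ⟨x, hx⟩
    simp only [Submodule.subtype_apply, LinearMap.comp_apply] at h2
    rw [LinearMap.mem_ker, LinearMap.comp_apply, h2, Submodule.mkQ_apply,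
      Submodule.Quotient.mk_eq_zero]
    exact ⟨_, rfl⟩
  have hq : Function.Injective ((LinearMap.ker q).liftQ q le_rfl) := by
    rw [← LinearMap.ker_eq_bot]
    exact Submodule.ker_liftQ_eq_bot _ _ _ le_rfl
  obtain ⟨H, hH⟩ := h1.out ((LinearMap.ker q).liftQ q le_rfl) hq
    ((LinearMap.ker q).liftQ _ hle)
  obtain ⟨v, hv⟩ := (LinearMap.range f).mkQ_surjective (H 1)
  have hmem : ∀ x, (G - LinearMap.toSpanSingleton A I v ∘ₗ q) x ∈ LinearMap.range f := by
    intro x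
    have h2 := hH (Submodule.Quotient.mk x)
    simp only [Submodule.liftQ_apply, LinearMap.comp_apply] at h2
    rw [← Submodule.Quotient.mk_eq_zero, ← Submodule.mkQ_apply, LinearMap.sub_apply, map_sub,
      ← h2, LinearMap.comp_apply, LinearMap.toSpanSingleton_apply, map_smul, hv, ← map_smul,
      smul_eq_mul, mul_one, sub_self]
  refine ⟨(LinearEquiv.ofInjective f hf).symm.toLinearMap ∘ₗ
    (G - LinearMap.toSpanSingleton A I v ∘ₗ q).codRestrict _ hmem, fun x => ?_⟩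
  have h2 := hG x
  simp only [Submodule.subtype_apply, LinearMap.comp_apply] at h2
  have h3 : q x = 0 := x.2
  rw [LinearMap.comp_apply, LinearEquiv.coe_coe, LinearEquiv.symm_apply_eq]
  refine Subtype.ext ?_
  simp [h2, h3]

theorem dim_exact {k U V W : Type} [Field k] [AddCommGroup U] [AddCommGroup V] [AddCommGroup W]
    [Module k U] [Module k V] [Module k W] [FiniteDimensional k V]
    (α : U →ₗ[k] V) (β : V →ₗ[k] W) (U' : Submodule k U) (V' : Submodule k V)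
    (W' : Submodule k W) (hα : Function.Injective α)
    (h1 : ∀ v, v ∈ U'.map α ↔ v ∈ V' ∧ β v = 0) (h2 : V'.map β = W') :
    Module.finrank k V' = Module.finrank k U' + Module.finrank k W' := by
  have h3 := LinearMap.finrank_range_add_finrank_ker (β.domRestrict V')
  rw [LinearMap.range_domRestrict, h2] at h3
  have h4 : (LinearMap.ker (β.domRestrict V')).map V'.subtype = U'.map α := by
    ext v
    rw [h1]
    constructor
    · rintro ⟨x, hx, rfl⟩
      exact ⟨x.2, hx⟩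
    · rintro ⟨hv, hb⟩
      exact ⟨⟨v, hv⟩, hb, rfl⟩
  have h5 := (Submodule.equivMapOfInjective V'.subtype (Submodule.injective_subtype _)
    (LinearMap.ker (β.domRestrict V'))).finrank_eq
  have h6 := (Submodule.equivMapOfInjective α hα U').finrank_eq
  rw [h4] at h5
  omega

theorem dim_prod {k U V : Type} [Field k] [AddCommGroup U] [AddCommGroup V]
    [Module k U] [Module k V] [FiniteDimensional k U] [FiniteDimensional k V]
    (U' : Submodule k U) (V' : Submodule k V) :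
    Module.finrank k (U'.prod V') = Module.finrank k U' + Module.finrank k V' := by
  refine dim_exact (LinearMap.inl k U V) (LinearMap.snd k U V) U' _ V' LinearMap.inl_injective
    (fun v => ?_) ?_
  · constructor
    · rintro ⟨x, hx, rfl⟩
      exact ⟨⟨hx, V'.zero_mem⟩, rfl⟩
    · rintro ⟨hv, hb⟩
      exact ⟨v.1, hv.1, Prod.ext rfl hb.symm⟩
  · exact Submodule.prod_map_snd _ _

section Gr

variable {k : Type} [Field k] {A : Type} [Ring A] [Algebra k A] (𝒜 : ℕ → Submodule k A)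
  [GradedAlgebra 𝒜]

/-- The homogeneous component of degree `j`. -/
noncomputable def pr (j : ℕ) : A →ₗ[k] A := GradedAlgebra.proj 𝒜 j

theorem pr_apply (j : ℕ) (a : A) : pr 𝒜 j a = DirectSum.decompose 𝒜 a j := rfl

theorem pr_mem (j : ℕ) (a : A) : pr 𝒜 j a ∈ 𝒜 j := (DirectSum.decompose 𝒜 a j).2

theorem pr_same {j : ℕ} {a : A} (h : a ∈ 𝒜 j) : pr 𝒜 j a = a :=
  DirectSum.decompose_of_mem_same 𝒜 h

theorem pr_ne {i j : ℕ} {a : A} (h : a ∈ 𝒜 i) (hij : i ≠ j) : pr 𝒜 j a = 0 :=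
  DirectSum.decompose_of_mem_ne 𝒜 h hij

theorem eq_zero_of_pr {a : A} (h : ∀ j, pr 𝒜 j a = 0) : a = 0 := by
  have : DirectSum.decompose 𝒜 a = 0 := by
    ext j
    exact h j
  exact (DirectSum.decomposeAddEquiv 𝒜).map_eq_zero_iff.1 this

theorem sum_pr {R : ℕ} (hR : ∀ j, R ≤ j → 𝒜 j = ⊥) (a : A) :
    ∑ j ∈ Finset.range R, pr 𝒜 j a = a := by
  rw [← sub_eq_zero]
  refine eq_zero_of_pr 𝒜 fun i => ?_
  rw [map_sub, map_sum, Finset.sum_eq_single i, pr_same 𝒜 (pr_mem 𝒜 i a), sub_self]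
  · intro j _ hj
    exact pr_ne 𝒜 (pr_mem 𝒜 j a) hj
  · intro hi
    have h1 := pr_mem 𝒜 i a
    rw [hR i (by simpa using hi), Submodule.mem_bot] at h1
    rw [h1, map_zero]

theorem pr_mul_left {i : ℕ} {a : A} (ha : a ∈ 𝒜 i) (j : ℕ) (w : A) :
    pr 𝒜 j (a * w) = if i ≤ j then a * pr 𝒜 (j - i) w else 0 :=
  DirectSum.coe_decompose_mul_of_left_mem 𝒜 j ha

theorem pr_mul_right {i : ℕ} {a : A} (ha : a ∈ 𝒜 i) (j : ℕ) (w : A) :
    pr 𝒜 j (w * a) = if i ≤ j then pr 𝒜 (j - i) w * a else 0 :=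
  DirectSum.coe_decompose_mul_of_right_mem 𝒜 j ha

theorem pr_zero_mul {a : A} (ha : a ∈ 𝒜 0) (j : ℕ) (w : A) :
    pr 𝒜 j (a * w) = a * pr 𝒜 j w := by
  simpa using pr_mul_left 𝒜 ha j w

theorem pr_mul_zero {a : A} (ha : a ∈ 𝒜 0) (j : ℕ) (w : A) :
    pr 𝒜 j (w * a) = pr 𝒜 j w * a := by
  simpa using pr_mul_right 𝒜 ha j w

/-- The homogeneous component of integer degree `s`. -/
noncomputable def pz (s : ℤ) : A →ₗ[k] A := if 0 ≤ s then pr 𝒜 s.toNat else 0

theorem pz_nat (j : ℕ) : pz 𝒜 (j : ℤ) = pr 𝒜 j := by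
  simp [pz]

theorem pz_neg {s : ℤ} (h : s < 0) : pz 𝒜 s = 0 := if_neg (by omega)

theorem pz_mul_left {i : ℕ} {a : A} (ha : a ∈ 𝒜 i) (s : ℤ) (w : A) :
    pz 𝒜 (i + s) (a * w) = a * pz 𝒜 s w := by
  by_cases hs : 0 ≤ s
  · obtain ⟨j, rfl⟩ := Int.eq_ofNat_of_zero_le hs
    rw [← Nat.cast_add, pz_nat, pz_nat, pr_mul_left 𝒜 ha, if_pos (by omega),
      Nat.add_sub_cancel_left]
  · rw [pz_neg 𝒜 (not_le.1 hs), LinearMap.zero_apply, mul_zero]
    by_cases h2 : 0 ≤ (i : ℤ) + s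
    · obtain ⟨j, hj⟩ := Int.eq_ofNat_of_zero_le h2
      rw [hj, pz_nat, pr_mul_left 𝒜 ha, if_neg (by omega)]
    · rw [pz_neg 𝒜 (not_le.1 h2), LinearMap.zero_apply]

theorem pz_mul_zero {a : A} (ha : a ∈ 𝒜 0) (s : ℤ) (w : A) :
    pz 𝒜 s (w * a) = pz 𝒜 s w * a := by
  unfold pz
  split_ifs
  · exact pr_mul_zero 𝒜 ha _ w
  · simp

theorem pz_pz (s : ℤ) (w : A) : pz 𝒜 s (pz 𝒜 s w) = pz 𝒜 s w := by
  unfold pz
  split_ifs
  · exact pr_same 𝒜 (pr_mem 𝒜 _ w)
  · simp

end Gr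

end Pool.Agent.MP_92f1cb_al.H22G
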