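import Pool.Agent.MP_92f1cb_al.H22G.G1

/-! Homogeneous maps from graded left ideals to the algebra; the one-step exact sequence. -/

set_option autoImplicit false

namespace Pool.Agent.MP_92f1cb_al.H22G

variable {k : Type} [Field k] {A : Type} [Ring A] [Algebra k A] (𝒜 : ℕ → Submodule k A)
  [GradedAlgebra 𝒜]

/-- `K` is a graded left ideal. -/
def Gr (K : Submodule A A) : Prop := ∀ u ∈ K, ∀ j, pr 𝒜 j u ∈ K

/-- Maps `K → A ε` of degree `m`. -/
def HH (K : Submodule A A) (m : ℤ) (ε : A) : Submodule k (K →ₗ[A] A) where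
  carrier := {φ | ∀ (n : ℕ) (u : K), (u : A) ∈ 𝒜 n →
    pz 𝒜 (n + m) (φ u) = φ u ∧ φ u * ε = φ u}
  add_mem' := fun {φ ψ} hφ hψ n u hu => by
    rw [LinearMap.add_apply, map_add, add_mul, (hφ n u hu).1, (hψ n u hu).1, (hφ n u hu).2,
      (hψ n u hu).2]
    exact ⟨rfl, rfl⟩
  zero_mem' := fun n u _ => by simp
  smul_mem' := fun c φ hφ n u hu => by
    rw [LinearMap.smul_apply, map_smul, smul_mul_assoc, (hφ n u hu).1, (hφ n u hu).2]
    exact ⟨rfl, rfl⟩

/-- The corner `η A ε` in degree `s`. -/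
def ZZ (η : A) (s : ℤ) (ε : A) : Submodule k A where
  carrier := {z | η * z = z ∧ pz 𝒜 s z = z ∧ z * ε = z}
  add_mem' := fun {x y} hx hy => by
    refine ⟨?_, ?_, ?_⟩
    · rw [mul_add, hx.1, hy.1]
    · rw [map_add, hx.2.1, hy.2.1]
    · rw [add_mul, hx.2.2, hy.2.2]
  zero_mem' := by simp
  smul_mem' := fun c x hx => by
    refine ⟨?_, ?_, ?_⟩
    · rw [mul_smul_comm, hx.1]
    · rw [map_smul, hx.2.1]
    · rw [smul_mul_assoc, hx.2.2]

theorem pr_zero_mul_of {a : A} (ha : pr 𝒜 0 a = 0) (b : A) : pr 𝒜 0 (b * a) = 0 := by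
  induction b using DirectSum.Decomposition.inductionOn 𝒜 with
  | zero => simp
  | @homogeneous i b =>
    rw [pr_mul_left 𝒜 b.2]
    split_ifs with h
    · rw [Nat.zero_sub, ha, mul_zero]
    · rfl
  | add x y hx hy => rw [add_mul, map_add, hx, hy, add_zero]

/-- The radical of the projective `A η`. -/
def NN (η : A) : Submodule A A where
  carrier := {a | a * η = a ∧ pr 𝒜 0 a = 0}
  add_mem' := fun {x y} hx hy => ⟨by rw [add_mul, hx.1, hy.1], by rw [map_add, hx.2, hy.2,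
    add_zero]⟩
  zero_mem' := by simp
  smul_mem' := fun c x hx => ⟨by rw [smul_eq_mul, mul_assoc, hx.1], pr_zero_mul_of 𝒜 hx.2 c⟩

theorem Gr.ind {K : Submodule A A} (hK : Gr 𝒜 K) {R : ℕ} (hR : ∀ j, R ≤ j → 𝒜 j = ⊥)
    {P : K → Prop} (h0 : P 0) (ha : ∀ x y, P x → P y → P (x + y))
    (hh : ∀ (n : ℕ) (u : K), (u : A) ∈ 𝒜 n → P u) (u : K) : P u := by
  have h1 : u = ∑ j ∈ Finset.range R, (⟨pr 𝒜 j u, hK u u.2 j⟩ : K) := by
    refine Subtype.ext ?_
    rw [Submodule.coe_sum]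
    exact (sum_pr 𝒜 hR u).symm
  rw [h1]
  exact Finset.sum_induction _ P ha h0 fun j _ => hh j _ (pr_mem 𝒜 j u)

/-- The component of degree `m` of a map, cut by `ε` on the right. -/
theorem exists_comp {K : Submodule A A} (hK : Gr 𝒜 K) {R : ℕ} (hR : ∀ j, R ≤ j → 𝒜 j = ⊥)
    (φ : K →ₗ[A] A) (m : ℤ) (ε : A) :
    ∃ ψ : K →ₗ[A] A, ∀ (n : ℕ) (u : K), (u : A) ∈ 𝒜 n → ψ u = pz 𝒜 (n + m) (φ u) * ε := by
  let c : ℕ → K → K := fun j u => ⟨pr 𝒜 j u, hK u u.2 j⟩
  let ψ : K → A := fun u => ∑ j ∈ Finset.range R, pz 𝒜 (j + m) (φ (c j u)) * ε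
  have hadd : ∀ u v, ψ (u + v) = ψ u + ψ v := by
    intro u v
    simp only [ψ, ← Finset.sum_add_distrib]
    refine Finset.sum_congr rfl fun j _ => ?_
    have : c j (u + v) = c j u + c j v := Subtype.ext (map_add (pr 𝒜 j) _ _)
    rw [this, map_add, map_add, add_mul]
  have hhom : ∀ (n : ℕ) (u : K), (u : A) ∈ 𝒜 n → ψ u = pz 𝒜 (n + m) (φ u) * ε := by
    intro n u hu
    simp only [ψ]
    rw [Finset.sum_eq_single n]
    · have : c n u = u := Subtype.ext (pr_same 𝒜 hu)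
      rw [this]
    · intro j _ hj
      have : c j u = 0 := Subtype.ext (pr_ne 𝒜 hu hj.symm)
      rw [this, map_zero, map_zero, zero_mul]
    · intro hn
      rw [hR n (by simpa using hn), Submodule.mem_bot] at hu
      have : c n u = 0 := Subtype.ext (by simp [c, hu])
      rw [this, map_zero, map_zero, zero_mul]
  have hz : ψ 0 = 0 := by
    rw [hhom 0 0 (Submodule.zero_mem _), map_zero, map_zero, zero_mul]
  have hsm : ∀ (a : A) (u : K), ψ (a • u) = a • ψ u := by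
    intro a u
    induction a using DirectSum.Decomposition.inductionOn 𝒜 with
    | zero => rw [zero_smul, zero_smul, hz]
    | @homogeneous i a =>
      refine hK.ind 𝒜 hR (P := fun u => ψ ((a : A) • u) = (a : A) • ψ u) ?_ ?_ ?_ u
      · rw [smul_zero, hz, smul_zero]
      · intro x y hx hy
        rw [smul_add, hadd, hadd, hx, hy, smul_add]
      · intro n u hu
        rw [hhom n u hu, hhom (i + n) _ (SetLike.mul_mem_graded a.2 hu), map_smul, smul_eq_mul,
          smul_eq_mul, Nat.cast_add, add_assoc, pz_mul_left 𝒜 a.2, mul_assoc]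
    | add x y hx hy => rw [add_smul, hadd, hx, hy, add_smul]
  exact ⟨{ toFun := ψ, map_add' := hadd, map_smul' := hsm }, hhom⟩

theorem gr_NN {η : A} (hη : η ∈ 𝒜 0) : Gr 𝒜 (NN 𝒜 η) := by
  intro u hu j
  refine ⟨by rw [← pr_mul_zero 𝒜 hη, hu.1], ?_⟩
  by_cases hj : j = 0
  · rw [hj, hu.2, map_zero]
  · exact pr_ne 𝒜 (pr_mem 𝒜 j u) hj

/-- The data of a graded left ideal of codimension one in another. -/
structure Step (K' K : Submodule A A) (η y : A) (n : ℕ) : Prop where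
  le : K' ≤ K
  mem : y ∈ K
  deg : y ∈ 𝒜 n
  idem : η * y = y
  iff : ∀ a : A, a * y ∈ K' ↔ a * η ∈ NN 𝒜 η
  gen : ∀ u ∈ K, ∃ c : k, u - c • y ∈ K'

theorem step_dim [FiniteDimensional k A] (hE : Extends A) {R : ℕ} (hR : ∀ j, R ≤ j → 𝒜 j = ⊥)
    {K' K : Submodule A A} (hK' : Gr 𝒜 K') {η y : A} {n : ℕ}
    (hη : η ∈ 𝒜 0) (hη2 : η * η = η) (S : Step 𝒜 K' K η y n) (m : ℤ) {ε : A} (hε : ε ∈ 𝒜 0)
    (hε2 : ε * ε = ε) :
    Module.finrank k (HH 𝒜 K' m ε) + Module.finrank k (ZZ 𝒜 η (n + m) ε) =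
      Module.finrank k (HH 𝒜 K m ε) + Module.finrank k (HH 𝒜 (NN 𝒜 η) (n + m) ε) := by
  have hin : ∀ a : NN 𝒜 η, (a : A) * y ∈ K' := fun a => (S.iff a).2 (by rw [a.2.1]; exact a.2)
  let ρ : NN 𝒜 η →ₗ[A] K' :=
    (LinearMap.toSpanSingleton A A y ∘ₗ (NN 𝒜 η).subtype).codRestrict K' hin
  have hρ : ∀ a, (ρ a : A) = a * y := fun _ => rfl
  let α : (K →ₗ[A] A) →ₗ[k] (K' →ₗ[A] A) × A :=
    { toFun := fun φ => (φ ∘ₗ Submodule.inclusion S.le, φ ⟨y, S.mem⟩)
      map_add' := fun _ _ => rfl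
      map_smul' := fun _ _ => rfl }
  let β : (K' →ₗ[A] A) × A →ₗ[k] (NN 𝒜 η →ₗ[A] A) :=
    { toFun := fun v => LinearMap.toSpanSingleton A A v.2 ∘ₗ (NN 𝒜 η).subtype - v.1 ∘ₗ ρ
      map_add' := fun v w => by
        ext a
        simp [mul_add]
        abel
      map_smul' := fun c v => by
        ext a
        simp [smul_sub] }
  have hβ : ∀ v a, β v a = (a : A) * v.2 - v.1 (ρ a) := fun _ _ => rfl
  have hdec : ∀ (φ : K →ₗ[A] A) (u : K) (c : k) (h : (u : A) - c • y ∈ K'),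
      φ u = φ (Submodule.inclusion S.le ⟨_, h⟩) + c • φ ⟨y, S.mem⟩ := by
    intro φ u c h
    rw [← algebraMap_smul A c (φ ⟨y, S.mem⟩), ← map_smul, ← map_add]
    refine congrArg φ (Subtype.ext ?_)
    simp
  let q : K' × A →ₗ[A] A := K'.subtype.coprod (LinearMap.toSpanSingleton A A y)
  have hq : ∀ v : K' × A, q v = v.1 + v.2 * y := fun _ => rfl
  have hker : ∀ v : LinearMap.ker q, v.1.2 * η ∈ NN 𝒜 η := by
    intro v
    have h1 : (v.1.1 : A) + v.1.2 * y = 0 := v.2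
    rw [← S.iff, eq_neg_of_add_eq_zero_right h1]
    exact K'.neg_mem v.1.1.2
  rw [← dim_prod]
  refine dim_exact α β _ _ _ ?_ (fun v => ⟨?_, ?_⟩) ?_
  · rw [injective_iff_map_eq_zero]
    intro φ hφ
    ext u
    obtain ⟨c, hc⟩ := S.gen u u.2
    have h1 : φ ∘ₗ Submodule.inclusion S.le = 0 := congrArg Prod.fst hφ
    have h2 : φ ⟨y, S.mem⟩ = 0 := congrArg Prod.snd hφ
    have h3 := LinearMap.congr_fun h1 ⟨_, hc⟩
    rw [LinearMap.comp_apply] at h3
    rw [hdec φ u c hc, h3, h2]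
    simp
  · rintro ⟨φ, hφ, rfl⟩
    refine ⟨⟨fun j u hu => hφ j (Submodule.inclusion S.le u) hu, ?_, hφ n _ S.deg⟩, ?_⟩
    · change η * φ ⟨y, S.mem⟩ = φ ⟨y, S.mem⟩
      rw [← smul_eq_mul, ← map_smul]
      exact congrArg φ (Subtype.ext S.idem)
    · ext a
      rw [hβ, LinearMap.zero_apply, sub_eq_zero]
      change (a : A) • φ ⟨y, S.mem⟩ = φ (Submodule.inclusion S.le (ρ a))
      rw [← map_smul]
      exact congrArg φ (Subtype.ext rfl)
  · rintro ⟨⟨hv1, hv2⟩, hb⟩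
    have hqK : ∀ x, q x ∈ K := fun x => K.add_mem (S.le x.1.2) (K.smul_mem _ S.mem)
    have hsurj : Function.Surjective (q.codRestrict K hqK) := by
      intro u
      obtain ⟨c, hc⟩ := S.gen u u.2
      refine ⟨(⟨_, hc⟩, algebraMap k A c), Subtype.ext ?_⟩
      change (u : A) - c • y + algebraMap k A c * y = u
      rw [← Algebra.smul_def, sub_add_cancel]
    let G : K' × A →ₗ[A] A := v.1.coprod (LinearMap.toSpanSingleton A A v.2)
    have hG : ∀ x : K' × A, G x = v.1 x.1 + x.2 * v.2 := fun _ => rfl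
    have hle : LinearMap.ker (q.codRestrict K hqK) ≤ LinearMap.ker G := by
      intro x hx
      rw [LinearMap.ker_codRestrict] at hx
      have h1 : (x.1 : A) + x.2 * y = 0 := hx
      have h2 := LinearMap.congr_fun hb ⟨_, hker ⟨x, hx⟩⟩
      rw [hβ, LinearMap.zero_apply, sub_eq_zero] at h2
      have h3 : ρ ⟨_, hker ⟨x, hx⟩⟩ = -x.1 := by
        refine Subtype.ext ?_
        rw [hρ]
        change x.2 * η * y = -(x.1 : A)
        rw [mul_assoc, S.idem]
        exact eq_neg_of_add_eq_zero_right h1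
      rw [h3, map_neg] at h2
      change x.2 * η * v.2 = _ at h2
      rw [mul_assoc, hv2.1] at h2
      rw [LinearMap.mem_ker, hG, h2, add_neg_cancel]
    let φ : K →ₗ[A] A := (LinearMap.ker (q.codRestrict K hqK)).liftQ G hle ∘ₗ
      ((q.codRestrict K hqK).quotKerEquivOfSurjective hsurj).symm.toLinearMap
    have hφ : ∀ x, φ (q.codRestrict K hqK x) = G x := by
      intro x
      simp only [φ, LinearMap.comp_apply, LinearEquiv.coe_coe,
        LinearMap.quotKerEquivOfSurjective_symm_apply, Submodule.liftQ_apply]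
    have h1 : ∀ u : K', φ (Submodule.inclusion S.le u) = v.1 u := by
      intro u
      have h2 := hφ (u, 0)
      rw [hG, zero_mul, add_zero] at h2
      rw [← h2]
      exact congrArg φ (Subtype.ext (by simp [hq]))
    have h2 : φ ⟨y, S.mem⟩ = v.2 := by
      have h3 := hφ (0, 1)
      rw [hG, map_zero, zero_add, one_mul] at h3
      rw [← h3]
      exact congrArg φ (Subtype.ext (by simp [hq]))
    refine ⟨φ, fun j u hu => ?_, Prod.ext (LinearMap.ext h1) h2⟩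
    obtain ⟨c, hc⟩ := S.gen u u.2
    by_cases hj : j = n
    · subst hj
      have h4 := hv1 j ⟨_, hc⟩ (Submodule.sub_mem _ hu (Submodule.smul_mem _ c S.deg))
      rw [hdec φ u c hc, h1, h2, map_add, map_smul, add_mul, smul_mul_assoc, h4.1, h4.2,
        hv2.2.1, hv2.2.2]
      exact ⟨rfl, rfl⟩
    · have h4 := hK' _ hc j
      rw [map_sub, map_smul, pr_same 𝒜 hu, pr_ne 𝒜 S.deg (Ne.symm hj), smul_zero,
        sub_zero] at h4
      have h5 : u = Submodule.inclusion S.le ⟨u, h4⟩ := rfl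
      rw [h5, h1]
      exact hv1 j ⟨u, h4⟩ hu
  · ext g
    constructor
    · rintro ⟨v, ⟨hv1, hv2⟩, rfl⟩ j a ha
      have h1 := hv1 (j + n) (ρ a) (SetLike.mul_mem_graded ha S.deg)
      rw [Nat.cast_add, add_assoc] at h1
      rw [hβ, map_sub, sub_mul, h1.1, h1.2, pz_mul_left 𝒜 ha, hv2.2.1, mul_assoc, hv2.2.2]
      exact ⟨rfl, rfl⟩
    · intro hg
      let τ : LinearMap.ker q →ₗ[A] NN 𝒜 η := (LinearMap.toSpanSingleton A A η ∘ₗ
        LinearMap.snd A K' A ∘ₗ (LinearMap.ker q).subtype).codRestrict _ hker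
      obtain ⟨G, hG⟩ := hE _ q (g ∘ₗ τ)
      have h1 : ∀ a : NN 𝒜 η, g a = (a : A) * G (0, 1) - G (ρ a, 0) := by
        intro a
        have hm : (-ρ a, (a : A)) ∈ LinearMap.ker q := by
          rw [LinearMap.mem_ker, hq]
          simp [hρ]
        have h2 := hG ⟨_, hm⟩
        have h3 : τ ⟨_, hm⟩ = a := Subtype.ext a.2.1
        rw [LinearMap.comp_apply, h3] at h2
        rw [← h2, ← smul_eq_mul, ← map_smul, ← map_sub]
        exact congrArg G (by simp)
      obtain ⟨ψ, hψ⟩ := exists_comp 𝒜 hK' hR (G ∘ₗ LinearMap.inl A K' A) m ε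
      refine ⟨(ψ, η * pz 𝒜 (n + m) (G (0, 1)) * ε), ⟨fun j u hu => ?_, ?_, ?_, ?_⟩, ?_⟩
      · change pz 𝒜 (j + m) (ψ u) = ψ u ∧ ψ u * ε = ψ u
        rw [hψ j u hu, pz_mul_zero 𝒜 hε, pz_pz, mul_assoc, hε2]
        exact ⟨rfl, rfl⟩
      · change η * (η * _ * ε) = η * _ * ε
        rw [← mul_assoc, ← mul_assoc, hη2]
      · change pz 𝒜 (n + m) (η * _ * ε) = η * _ * ε
        have h4 := pz_mul_left 𝒜 hη (n + m) (pz 𝒜 (n + m) (G (0, 1)))
        rw [Nat.cast_zero, zero_add] at h4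
        rw [pz_mul_zero 𝒜 hε, h4, pz_pz]
      · change η * _ * ε * ε = η * _ * ε
        rw [mul_assoc _ ε, hε2]
      · refine LinearMap.ext fun a => ?_
        refine (gr_NN 𝒜 hη).ind 𝒜 hR (P := fun a => β _ a = g a) ?_ ?_ ?_ a
        · rw [map_zero, map_zero]
        · intro x y hx hy
          rw [map_add, map_add, hx, hy]
        · intro j a ha
          have h5 := hg j a ha
          rw [hβ, hψ (j + n) (ρ a) (SetLike.mul_mem_graded ha S.deg), ← h5.2, ← h5.1, h1,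
            map_sub, pz_mul_left 𝒜 ha, sub_mul, Nat.cast_add, add_assoc, ← mul_assoc,
            ← mul_assoc, a.2.1]
          rfl

end Pool.Agent.MP_92f1cb_al.H22G
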