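import Pool.Agent.MP_92f1cb_al.H22G.G2

/-! Dimension vectors of graded left ideals and the additive formula. -/

set_option autoImplicit false

namespace Pool.Agent.MP_92f1cb_al.H22G

open Polynomial

/-- The additive functional with value `w (n + m)` on `X ^ n`. -/
noncomputable def LL (w : ℤ → ℤ) (m : ℤ) : ℤ[X] →ₗ[ℤ] ℤ :=
  Polynomial.lsum fun n : ℕ => LinearMap.toSpanSingleton ℤ ℤ (w (n + m))

theorem LL_monomial (w : ℤ → ℤ) (m : ℤ) (n : ℕ) (c : ℤ) :
    LL w m (monomial n c) = c * w (n + m) := by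
  simp [LL, Polynomial.sum_monomial_index]

theorem LL_mul (w : ℤ → ℤ) (m : ℤ) (f : ℤ[X]) (s : ℕ) (c : ℤ) :
    LL w m (f * monomial s c) = c * LL w (s + m) f := by
  induction f using Polynomial.induction_on' with
  | add p q hp hq => rw [add_mul, map_add, map_add, hp, hq, mul_add]
  | monomial n a =>
    rw [monomial_mul_monomial, LL_monomial, LL_monomial, Nat.cast_add, add_assoc]
    ring

theorem LL_top (w : ℤ → ℤ) (hw : ∀ s, s < 0 → w s = 0) (M : ℕ) (f : ℤ[X])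
    (hf : ∀ s, M < s → f.coeff s = 0) : LL w (-(M : ℤ)) f = f.coeff M * w 0 := by
  conv_lhs => rw [f.as_sum_support]
  rw [map_sum, Finset.sum_eq_single M]
  · rw [LL_monomial, add_neg_cancel]
  · intro s _ hs
    rw [LL_monomial]
    rcases lt_or_gt_of_ne hs with h | h
    · rw [hw _ (by omega), mul_zero]
    · rw [hf s h, zero_mul]
  · intro h
    rw [notMem_support_iff.1 h, LL_monomial]
    simp

variable {k : Type} [Field k] {A : Type} [Ring A] [Algebra k A] (𝒜 : ℕ → Submodule k A)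
  [GradedAlgebra 𝒜]

/-- The part of `K` of degree `n` fixed by `η`. -/
def VV (K : Submodule A A) (η : A) (n : ℕ) : Submodule k A where
  carrier := {u | u ∈ K ∧ u ∈ 𝒜 n ∧ η * u = u}
  add_mem' := fun {x y} hx hy => ⟨K.add_mem hx.1 hy.1, (𝒜 n).add_mem hx.2.1 hy.2.1, by
    rw [mul_add, hx.2.2, hy.2.2]⟩
  zero_mem' := by simp
  smul_mem' := fun c x hx => ⟨by
    rw [← algebraMap_smul A c x]
    exact K.smul_mem _ hx.1, (𝒜 n).smul_mem c hx.2.1, by rw [mul_smul_comm, hx.2.2]⟩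

/-- The dimension polynomial of `η K`. -/
noncomputable def dv (R : ℕ) (K : Submodule A A) (η : A) : ℤ[X] :=
  ∑ n ∈ Finset.range R, monomial n (Module.finrank k (VV 𝒜 K η n) : ℤ)

omit [GradedAlgebra 𝒜] in
theorem coeff_dv {R : ℕ} (hR : ∀ j, R ≤ j → 𝒜 j = ⊥) (K : Submodule A A) (η : A) (n : ℕ) :
    (dv 𝒜 R K η).coeff n = Module.finrank k (VV 𝒜 K η n) := by
  simp only [dv, finsetSum_coeff, coeff_monomial, Finset.sum_ite_eq', Finset.mem_range]
  split_ifs with h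
  · rfl
  · have : VV 𝒜 K η n = ⊥ := by
      rw [eq_bot_iff]
      intro u hu
      have h1 := hu.2.1
      rwa [hR n (by omega)] at h1
    rw [this, finrank_bot, Nat.cast_zero]

theorem pr_low {n : ℕ} {u : A} (hu : ∀ j, j < n → pr 𝒜 j u = 0) (a : A) :
    pr 𝒜 n (a * u) = pr 𝒜 0 a * pr 𝒜 n u := by
  induction a using DirectSum.Decomposition.inductionOn 𝒜 with
  | zero => simp
  | @homogeneous i a =>
    rcases Nat.eq_zero_or_pos i with rfl | hi
    · rw [pr_zero_mul 𝒜 a.2, pr_same 𝒜 a.2]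
    · rw [pr_mul_left 𝒜 a.2, pr_ne 𝒜 a.2 hi.ne', zero_mul]
      split_ifs with h
      · rw [hu _ (by omega), mul_zero]
      · rfl
  | add x y hx hy => rw [add_mul, map_add, map_add, hx, hy, add_mul]

variable {ι : Type} [Fintype ι] {e : ι → A}

omit [GradedAlgebra 𝒜] in
theorem scal (he : CompleteOrthogonalIdempotents e)
    (h0 : 𝒜 0 = Submodule.span k (Set.range e)) (l : ι) {a : A} (ha : a ∈ 𝒜 0) :
    ∃ c : k, e l * a = c • e l ∧ a * e l = c • e l := by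
  classical
  rw [h0] at ha
  obtain ⟨c, rfl⟩ := (Submodule.mem_span_range_iff_exists_fun k).1 ha
  refine ⟨c l, ?_, ?_⟩
  · rw [Finset.mul_sum, Finset.sum_eq_single l, mul_smul_comm, (he.idem l).eq]
    · intro i _ hi
      rw [mul_smul_comm, he.ortho hi.symm, smul_zero]
    · simp
  · rw [Finset.sum_mul, Finset.sum_eq_single l, smul_mul_assoc, (he.idem l).eq]
    · intro i _ hi
      rw [smul_mul_assoc, he.ortho hi, smul_zero]
    · simp

omit [GradedAlgebra 𝒜] [Fintype ι] in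
theorem e_mem (h0 : 𝒜 0 = Submodule.span k (Set.range e)) (l : ι) : e l ∈ 𝒜 0 := by
  rw [h0]
  exact Submodule.subset_span ⟨l, rfl⟩

theorem exists_step (he : CompleteOrthogonalIdempotents e) (hne : ∀ i, e i ≠ 0)
    (h0 : 𝒜 0 = Submodule.span k (Set.range e)) {K : Submodule A A} (hK : Gr 𝒜 K)
    (hK0 : K ≠ ⊥) : ∃ K' l y n, Gr 𝒜 K' ∧ Step 𝒜 K' K (e l) y n := by
  classical
  have hex : ∃ n, ∃ u ∈ K, u ∈ 𝒜 n ∧ u ≠ 0 := by
    obtain ⟨u, hu, hu0⟩ := (Submodule.ne_bot_iff K).1 hK0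
    by_contra hc
    refine hu0 (eq_zero_of_pr 𝒜 fun j => ?_)
    by_contra h1
    exact hc ⟨j, _, hK u hu j, pr_mem 𝒜 j u, h1⟩
  obtain ⟨u₀, hu₀, hd, hu0⟩ := Nat.find_spec hex
  set n := Nat.find hex with hn
  have hlow : ∀ u ∈ K, ∀ j, j < n → pr 𝒜 j u = 0 := by
    intro u hu j hj
    by_contra h1
    exact Nat.find_min hex hj ⟨_, hK u hu j, pr_mem 𝒜 j u, h1⟩
  obtain ⟨l, hl⟩ : ∃ l, e l * u₀ ≠ 0 := by
    by_contra hc
    refine hu0 ?_
    rw [← one_mul u₀, ← he.complete, Finset.sum_mul]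
    exact Finset.sum_eq_zero fun l _ => by_contra fun h => hc ⟨l, h⟩
  obtain ⟨χ, hχ⟩ := Module.Projective.exists_dual_eq_one k hl
  have hy : e l * (e l * u₀) = e l * u₀ := by rw [← mul_assoc, (he.idem l).eq]
  have hyd : e l * u₀ ∈ 𝒜 n := by
    simpa using SetLike.mul_mem_graded (e_mem 𝒜 h0 l) hd
  have hyK : e l * u₀ ∈ K := K.smul_mem _ hu₀
  have hmul : ∀ (a : A) (c : k), e l * pr 𝒜 0 a = c • e l → ∀ u ∈ K,
      χ (e l * pr 𝒜 n (a * u)) = c * χ (e l * pr 𝒜 n u) := by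
    intro a c hc u hu
    rw [pr_low 𝒜 (hlow u hu), ← mul_assoc, hc, smul_mul_assoc, map_smul, smul_eq_mul]
  let K' : Submodule A A :=
    { carrier := {u | u ∈ K ∧ χ (e l * pr 𝒜 n u) = 0}
      add_mem' := fun {x y} hx hy => ⟨K.add_mem hx.1 hy.1, by
        rw [map_add, mul_add, map_add, hx.2, hy.2, add_zero]⟩
      zero_mem' := by simp
      smul_mem' := fun a x hx => ⟨K.smul_mem a hx.1, by
        obtain ⟨c, hc, -⟩ := scal 𝒜 he h0 l (pr_mem 𝒜 0 a)
        rw [smul_eq_mul, hmul a c hc x hx.1, hx.2, mul_zero]⟩ }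
  refine ⟨K', l, e l * u₀, n, fun u hu j => ⟨hK u hu.1 j, ?_⟩, fun u hu => hu.1, hyK, hyd, hy,
    fun a => ?_, fun u hu => ⟨χ (e l * pr 𝒜 n u), ?_, ?_⟩⟩
  · by_cases hj : j = n
    · rw [hj, pr_same 𝒜 (pr_mem 𝒜 n u)]
      exact hu.2
    · rw [pr_ne 𝒜 (pr_mem 𝒜 j u) hj, mul_zero, map_zero]
  · obtain ⟨c, hc, hc'⟩ := scal 𝒜 he h0 l (pr_mem 𝒜 0 a)
    have h1 := hmul a c hc _ hyK
    rw [pr_same 𝒜 hyd, hy, hχ, mul_one] at h1
    have h2 : pr 𝒜 0 (a * e l) = c • e l := by rw [pr_mul_zero 𝒜 (e_mem 𝒜 h0 l), hc']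
    constructor
    · intro h
      refine ⟨by rw [mul_assoc, (he.idem l).eq], ?_⟩
      rw [h2, ← h1, h.2, zero_smul]
    · intro h
      refine ⟨K.smul_mem a hyK, ?_⟩
      have h3 := h.2
      rw [h2, smul_eq_zero] at h3
      rw [h1]
      exact h3.resolve_right (hne l)
  · refine K.sub_mem hu ?_
    rw [← algebraMap_smul A]
    exact K.smul_mem _ hyK
  · rw [map_sub, map_smul, pr_same 𝒜 hyd, mul_sub, mul_smul_comm, hy, map_sub, map_smul, hχ,
      smul_eq_mul, mul_one, sub_self]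

theorem Step.notMem {K' K : Submodule A A} {η y : A} {n : ℕ} (S : Step 𝒜 K' K η y n)
    (hη : η ∈ 𝒜 0) (hη0 : η ≠ 0) : y ∉ K' := by
  intro h
  have h1 := ((S.iff 1).1 (by rwa [one_mul])).2
  rw [one_mul, pr_same 𝒜 hη] at h1
  exact hη0 h1

theorem step_dv [FiniteDimensional k A] [DecidableEq ι] (he : CompleteOrthogonalIdempotents e)
    (hne : ∀ i, e i ≠ 0) (h0 : 𝒜 0 = Submodule.span k (Set.range e)) {R : ℕ}
    (hR : ∀ j, R ≤ j → 𝒜 j = ⊥) {K' K : Submodule A A} (hK' : Gr 𝒜 K') {l : ι} {y : A} {n : ℕ}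
    (S : Step 𝒜 K' K (e l) y n) (i : ι) :
    dv 𝒜 R K (e i) = dv 𝒜 R K' (e i) + if i = l then monomial n 1 else 0 := by
  ext j
  rw [coeff_add, coeff_dv 𝒜 hR, coeff_dv 𝒜 hR]
  by_cases h : i = l ∧ n = j
  · obtain ⟨rfl, rfl⟩ := h
    have h1 : VV 𝒜 K (e i) n = VV 𝒜 K' (e i) n ⊔ k ∙ y := by
      refine le_antisymm (fun u hu => ?_) (sup_le (fun u hu => ⟨S.le hu.1, hu.2⟩) ?_)
      · obtain ⟨c, hc⟩ := S.gen u hu.1
        rw [← sub_add_cancel u (c • y)]
        refine Submodule.add_mem_sup ⟨hc, (𝒜 n).sub_mem hu.2.1 ((𝒜 n).smul_mem c S.deg), ?_⟩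
          (Submodule.smul_mem _ c (Submodule.mem_span_singleton_self y))
        rw [mul_sub, mul_smul_comm, hu.2.2, S.idem]
      · rw [Submodule.span_singleton_le_iff_mem]
        exact ⟨S.mem, S.deg, S.idem⟩
    have h2 : y ∉ VV 𝒜 K' (e i) n := fun h => S.notMem 𝒜 (e_mem 𝒜 h0 i) (hne i) h.1
    rw [h1, Submodule.finrank_sup_span_singleton h2]
    simp
  · have h1 : VV 𝒜 K (e i) j = VV 𝒜 K' (e i) j := by
      refine le_antisymm (fun u hu => ⟨?_, hu.2⟩) (fun u hu => ⟨S.le hu.1, hu.2⟩)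
      obtain ⟨c, hc⟩ := S.gen u hu.1
      by_cases hi : i = l
      · have h2 := hK' _ hc j
        rwa [map_sub, map_smul, pr_same 𝒜 hu.2.1, pr_ne 𝒜 S.deg (fun h3 => h ⟨hi, h3⟩),
          smul_zero, sub_zero] at h2
      · have h2 := K'.smul_mem (e i) hc
        rwa [smul_eq_mul, mul_sub, mul_smul_comm, hu.2.2, ← S.idem, ← mul_assoc, he.ortho hi,
          zero_mul, smul_zero, sub_zero] at h2
    rw [h1]
    by_cases hi : i = l
    · rw [if_pos hi, coeff_monomial, if_neg (fun h3 => h ⟨hi, h3⟩), add_zero]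
    · rw [if_neg hi, coeff_zero, add_zero]

/-- The weight of the simple module at `η`. -/
noncomputable def ww (η ε : A) (s : ℤ) : ℤ :=
  (Module.finrank k (ZZ 𝒜 η s ε) : ℤ) - Module.finrank k (HH 𝒜 (NN 𝒜 η) s ε)

theorem dim_HH [FiniteDimensional k A] (hE : Extends A) (he : CompleteOrthogonalIdempotents e)
    (hne : ∀ i, e i ≠ 0) (h0 : 𝒜 0 = Submodule.span k (Set.range e)) {R : ℕ}
    (hR : ∀ j, R ≤ j → 𝒜 j = ⊥) (p : ι) (m : ℤ) (K : Submodule A A) (hK : Gr 𝒜 K) :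
    (Module.finrank k (HH 𝒜 K m (e p)) : ℤ) =
      ∑ i, LL (ww 𝒜 (e i) (e p)) m (dv 𝒜 R K (e i)) := by
  classical
  have : IsArtinian A A := isArtinian_of_tower k inferInstance
  induction K using WellFoundedLT.induction with
  | ind K ih =>
    by_cases hK0 : K = ⊥
    · subst hK0
      have h1 : ∀ i, dv 𝒜 R ⊥ (e i) = 0 := by
        intro i
        ext j
        have : VV 𝒜 ⊥ (e i) j = ⊥ := eq_bot_iff.2 fun u hu => hu.1
        rw [coeff_dv 𝒜 hR, this, finrank_bot]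
        simp
      rw [Module.finrank_zero_of_subsingleton]
      simp [h1]
    · obtain ⟨K', l, y, n, hK', S⟩ := exists_step 𝒜 he hne h0 hK hK0
      have hlt : K' < K := lt_of_le_of_ne S.le fun h =>
        S.notMem 𝒜 (e_mem 𝒜 h0 l) (hne l) (h ▸ S.mem)
      have h1 := step_dim 𝒜 hE hR hK' (e_mem 𝒜 h0 l) (he.idem l).eq S m (e_mem 𝒜 h0 p)
        (he.idem p).eq
      simp only [step_dv 𝒜 he hne h0 hR hK' S, map_add, Finset.sum_add_distrib]
      rw [← ih K' hlt hK', Finset.sum_eq_single l, if_pos rfl, LL_monomial, one_mul, ww]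
      · omega
      · intro i _ hi
        rw [if_neg hi, map_zero]
      · simp

end Pool.Agent.MP_92f1cb_al.H22G
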