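import Pool.Agent.MP_92f1cb_al.H22G.G3

/-! With Cartan determinant one, every graded left ideal is projective. -/

set_option autoImplicit false

namespace Pool.Agent.MP_92f1cb_al.H22G

open Polynomial

/-- The left ideal `A η`. -/
def PP {A : Type} [Ring A] (η : A) : Submodule A A where
  carrier := {a | a * η = a}
  add_mem' := fun {x y} hx hy => by
    change (x + y) * η = x + y
    rw [add_mul, hx, hy]
  zero_mem' := zero_mul η
  smul_mem' := fun c x hx => by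
    change c * x * η = c * x
    rw [mul_assoc, hx]

variable {k : Type} [Field k] {A : Type} [Ring A] [Algebra k A] (𝒜 : ℕ → Submodule k A)
  [GradedAlgebra 𝒜]

theorem pz_pz_ne {s t : ℤ} (h : s ≠ t) (w : A) : pz 𝒜 s (pz 𝒜 t w) = 0 := by
  unfold pz
  split_ifs
  · exact pr_ne 𝒜 (pr_mem 𝒜 _ w) (by omega)
  all_goals simp

theorem gr_PP {η : A} (hη : η ∈ 𝒜 0) : Gr 𝒜 (PP η) := by
  intro u hu j
  have h1 : u * η = u := hu
  change pr 𝒜 j u * η = pr 𝒜 j u
  rw [← pr_mul_zero 𝒜 hη, h1]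

theorem dim_PP {η : A} (hη : η ∈ 𝒜 0) (hη2 : η * η = η) (s : ℤ) (ε : A) :
    Module.finrank k (HH 𝒜 (PP η) s ε) = Module.finrank k (ZZ 𝒜 η s ε) := by
  let ev : (PP η →ₗ[A] A) →ₗ[k] A :=
    { toFun := fun φ => φ ⟨η, hη2⟩
      map_add' := fun _ _ => rfl
      map_smul' := fun _ _ => rfl }
  have hev : ∀ (φ : PP η →ₗ[A] A) (u : PP η), φ u = (u : A) * ev φ := by
    intro φ u
    change φ u = (u : A) • φ ⟨η, hη2⟩
    rw [← map_smul]
    exact congrArg φ (Subtype.ext (Eq.symm u.2))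
  have hinj : Function.Injective ev := by
    intro φ ψ h
    ext u
    rw [hev, hev, h]
  have h1 : (HH 𝒜 (PP η) s ε).map ev = ZZ 𝒜 η s ε := by
    ext z
    constructor
    · rintro ⟨φ, hφ, rfl⟩
      have h2 := hφ 0 ⟨η, hη2⟩ hη
      rw [Nat.cast_zero, zero_add] at h2
      exact ⟨(hev φ ⟨η, hη2⟩).symm, h2⟩
    · intro hz
      refine ⟨LinearMap.toSpanSingleton A A z ∘ₗ (PP η).subtype, fun j u hu => ?_, hz.1⟩
      change pz 𝒜 (j + s) ((u : A) * z) = u * z ∧ (u : A) * z * ε = u * z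
      rw [pz_mul_left 𝒜 hu, hz.2.1, mul_assoc, hz.2.2]
      exact ⟨rfl, rfl⟩
  rw [← h1]
  exact (Submodule.equivMapOfInjective ev hinj _).finrank_eq

/-- The left ideal generated by the homogeneous elements of `K` of degree less than `g`. -/
def Low (K : Submodule A A) (g : ℕ) : Submodule A A :=
  Submodule.span A {u | u ∈ K ∧ ∃ j, j < g ∧ u ∈ 𝒜 j}

theorem gr_span {S : Set A} (hS : ∀ u ∈ S, ∃ j, u ∈ 𝒜 j) : Gr 𝒜 (Submodule.span A S) := by
  have key : ∀ u ∈ Submodule.span A S, ∀ (a : A) (j : ℕ),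
      pr 𝒜 j (a * u) ∈ Submodule.span A S := by
    intro u hu
    induction hu using Submodule.span_induction with
    | mem u hu =>
      intro a j
      obtain ⟨i, hi⟩ := hS u hu
      rw [pr_mul_right 𝒜 hi]
      split_ifs
      · exact Submodule.smul_mem _ _ (Submodule.subset_span hu)
      · exact Submodule.zero_mem _
    | zero => simp
    | add x y _ _ hx hy =>
      intro a j
      rw [mul_add, map_add]
      exact Submodule.add_mem _ (hx a j) (hy a j)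
    | smul c x _ hx =>
      intro a j
      rw [smul_eq_mul, ← mul_assoc]
      exact hx _ j
  intro u hu j
  simpa using key u hu 1 j

omit [GradedAlgebra 𝒜] in
theorem low_le (K : Submodule A A) (g : ℕ) : Low 𝒜 K g ≤ K :=
  Submodule.span_le.2 fun _ hu => hu.1

omit [GradedAlgebra 𝒜] in
theorem map_eq_zero_of_low {K : Submodule A A} {g : ℕ} (hg : K ≤ Low 𝒜 K g) (φ : K →ₗ[A] A)
    (h : ∀ j, j < g → ∀ u : K, (u : A) ∈ 𝒜 j → φ u = 0) : φ = 0 := by
  have key : ∀ u (hu : u ∈ Low 𝒜 K g), φ ⟨u, low_le 𝒜 K g hu⟩ = 0 := by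
    intro u hu
    induction hu using Submodule.span_induction with
    | mem u hu =>
      obtain ⟨h1, j, hj, h2⟩ := hu
      exact h j hj _ h2
    | zero => exact map_zero φ
    | add x y hx hy h1 h2 =>
      have h3 := map_add φ ⟨x, low_le 𝒜 K g hx⟩ ⟨y, low_le 𝒜 K g hy⟩
      rw [h1, h2, add_zero] at h3
      exact h3
    | smul c x hx h1 =>
      have h3 := map_smul φ c ⟨x, low_le 𝒜 K g hx⟩
      rw [h1, smul_zero] at h3
      exact h3
  ext u
  exact key u (hg u.2)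

theorem HH_low {K : Submodule A A} {M j : ℕ} {ε : A} {φ : K →ₗ[A] A}
    (hφ : φ ∈ HH 𝒜 K (-(M : ℤ)) ε) (hj : j < M) (u : K) (hu : (u : A) ∈ 𝒜 j) : φ u = 0 := by
  rw [← (hφ j u hu).1, pz_neg 𝒜 (by omega), LinearMap.zero_apply]

variable {ι : Type} [Fintype ι] [DecidableEq ι] {e : ι → A}

/-- All standing hypotheses. -/
structure Hyp (e : ι → A) (R : ℕ) (C : Matrix ι ι ℤ[X]) : Prop where
  ext : Extends A
  he : CompleteOrthogonalIdempotents e
  hne : ∀ i, e i ≠ 0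
  h0 : 𝒜 0 = Submodule.span k (Set.range e)
  hR : ∀ j, R ≤ j → 𝒜 j = ⊥
  hC : ∀ i j, C i j = dv 𝒜 R (PP (e j)) (e i)
  det : C.det = 1

/-- The class of `K` in terms of the projective modules. -/
noncomputable def al (e : ι → A) (R : ℕ) (C : Matrix ι ι ℤ[X]) (K : Submodule A A) :
    ι → ℤ[X] :=
  C.adjugate.mulVec fun i => dv 𝒜 R K (e i)

variable {𝒜} {R : ℕ} {C : Matrix ι ι ℤ[X]}

omit [GradedAlgebra 𝒜] in
theorem Hyp.mul_al (H : Hyp 𝒜 e R C) (K : Submodule A A) (i : ι) :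
    dv 𝒜 R K (e i) = ∑ l, C i l * al 𝒜 e R C K l := by
  have h1 : C.mulVec (al 𝒜 e R C K) = fun i => dv 𝒜 R K (e i) := by
    rw [al, Matrix.mulVec_mulVec, Matrix.mul_adjugate, H.det, one_smul, Matrix.one_mulVec]
  exact (congrFun h1 i).symm

theorem Hyp.top [FiniteDimensional k A] (H : Hyp 𝒜 e R C) {K : Submodule A A} (hK : Gr 𝒜 K)
    (M : ℕ) (hM : ∀ l s, M < s → (al 𝒜 e R C K l).coeff s = 0) (p : ι)
    (hp : (al 𝒜 e R C K p).coeff M ≠ 0) : ∃ φ ∈ HH 𝒜 K (-(M : ℤ)) (e p), φ ≠ 0 := by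
  let cc : ι → ℤ → ℤ := fun l s => Module.finrank k (ZZ 𝒜 (e l) s (e p))
  have h1 : ∀ (l : ι) (m : ℤ) (f : ℤ[X]),
      ∑ i, LL (ww 𝒜 (e i) (e p)) m (C i l * f) = LL (cc l) m f := by
    intro l m f
    induction f using Polynomial.induction_on' with
    | add f g hf hg => simp only [mul_add, map_add, Finset.sum_add_distrib, hf, hg]
    | monomial s c =>
      simp only [LL_mul, LL_monomial, ← Finset.mul_sum, H.hC]
      rw [← dim_HH 𝒜 H.ext H.he H.hne H.h0 H.hR p _ _ (gr_PP 𝒜 (e_mem 𝒜 H.h0 l)),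
        dim_PP 𝒜 (e_mem 𝒜 H.h0 l) (H.he.idem l).eq]
  have h2 : ∀ l s, s < 0 → cc l s = 0 := by
    intro l s hs
    have : ZZ 𝒜 (e l) s (e p) = ⊥ := eq_bot_iff.2 fun z hz => by
      have h3 := hz.2.1
      rw [pz_neg 𝒜 hs] at h3
      exact h3.symm
    change ((Module.finrank k (ZZ 𝒜 (e l) s (e p)) : ℕ) : ℤ) = 0
    rw [this, finrank_bot, Nat.cast_zero]
  have hz0 : pz 𝒜 0 = pr 𝒜 0 := pz_nat 𝒜 0
  have h3 : ∀ l, l ≠ p → cc l 0 = 0 := by
    intro l hl
    have : ZZ 𝒜 (e l) 0 (e p) = ⊥ := eq_bot_iff.2 fun z hz => by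
      have h4 := pr_mem 𝒜 0 z
      rw [← hz0, hz.2.1] at h4
      obtain ⟨c, hc, -⟩ := scal 𝒜 H.he H.h0 l h4
      rw [Submodule.mem_bot, ← hz.2.2, ← hz.1, hc, smul_mul_assoc, H.he.ortho hl, smul_zero]
    change ((Module.finrank k (ZZ 𝒜 (e l) 0 (e p)) : ℕ) : ℤ) = 0
    rw [this, finrank_bot, Nat.cast_zero]
  have h4 : cc p 0 ≠ 0 := by
    intro h
    have h5 : ZZ 𝒜 (e p) 0 (e p) = ⊥ := Submodule.finrank_eq_zero.1 (Nat.cast_eq_zero.1 h)
    have h6 : e p ∈ ZZ 𝒜 (e p) 0 (e p) :=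
      ⟨(H.he.idem p).eq, by rw [hz0, pr_same 𝒜 (e_mem 𝒜 H.h0 p)], (H.he.idem p).eq⟩
    rw [h5] at h6
    exact H.hne p h6
  have h5 := dim_HH 𝒜 H.ext H.he H.hne H.h0 H.hR p (-(M : ℤ)) K hK
  simp only [H.mul_al K, map_sum] at h5
  rw [Finset.sum_comm] at h5
  simp only [h1] at h5
  rw [Finset.sum_eq_single p, LL_top _ (h2 p) M _ (hM p)] at h5
  · rw [← Submodule.ne_bot_iff]
    intro h
    rw [h, finrank_bot, Nat.cast_zero] at h5
    exact mul_ne_zero hp h4 h5.symm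
  · intro l _ hl
    rw [LL_top _ (h2 l) M _ (hM l), h3 l hl, mul_zero]
  · simp

theorem Hyp.bound [FiniteDimensional k A] (H : Hyp 𝒜 e R C) {K : Submodule A A} (hK : Gr 𝒜 K)
    {g : ℕ} (hg : K ≤ Low 𝒜 K g) : ∀ l s, g ≤ s → (al 𝒜 e R C K l).coeff s = 0 := by
  classical
  have hex : ∃ M, ∀ l s, M ≤ s → (al 𝒜 e R C K l).coeff s = 0 :=
    ⟨(Finset.univ.sup fun l => (al 𝒜 e R C K l).natDegree) + 1, fun l s hs =>
      coeff_eq_zero_of_natDegree_lt (lt_of_le_of_lt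
        (Finset.le_sup (f := fun l => (al 𝒜 e R C K l).natDegree) (Finset.mem_univ l)) hs)⟩
  have h1 := Nat.find_spec hex
  by_cases h2 : Nat.find hex ≤ g
  · exact fun l s hs => h1 l s (h2.trans hs)
  · exfalso
    obtain ⟨M, hM⟩ : ∃ M, Nat.find hex = M + 1 := ⟨Nat.find hex - 1, by omega⟩
    refine Nat.find_min hex (m := M) (by omega) fun l s hs => ?_
    rcases hs.eq_or_lt with rfl | hs
    · by_contra hc
      obtain ⟨φ, hφ, h3⟩ := H.top hK M (fun l s hs => h1 l s (by omega)) l hc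
      exact h3 (map_eq_zero_of_low 𝒜 hg φ fun j hj u hu => HH_low 𝒜 hφ (by omega) u hu)
    · exact h1 l s (by omega)

theorem Hyp.coeff_ne [FiniteDimensional k A] (H : Hyp 𝒜 e R C) {K : Submodule A A}
    {g : ℕ} (hg : K ≤ Low 𝒜 K (g + 1)) (hg' : ¬ K ≤ Low 𝒜 K g) :
    ∃ p, (al 𝒜 e R C K p).coeff g ≠ 0 := by
  by_contra hc
  have hc' : ∀ p, (al 𝒜 e R C K p).coeff g = 0 := fun p => by_contra fun h => hc ⟨p, h⟩
  have hK' : Gr 𝒜 (Low 𝒜 K g) := gr_span 𝒜 fun u hu => ⟨_, hu.2.choose_spec.2⟩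
  have hb := H.bound hK' (g := g) (Submodule.span_mono fun u hu =>
    ⟨Submodule.subset_span hu, hu.2⟩)
  have h1 : ∀ i, X ^ g ∣ dv 𝒜 R K (e i) - dv 𝒜 R (Low 𝒜 K g) (e i) := by
    intro i
    rw [X_pow_dvd_iff]
    intro j hj
    have : VV 𝒜 K (e i) j = VV 𝒜 (Low 𝒜 K g) (e i) j :=
      le_antisymm (fun u hu => ⟨Submodule.subset_span ⟨hu.1, j, hj, hu.2.1⟩, hu.2⟩)
        (fun u hu => ⟨low_le 𝒜 K g hu.1, hu.2⟩)
    rw [coeff_sub, coeff_dv 𝒜 H.hR, coeff_dv 𝒜 H.hR, this, sub_self]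
  have h2 : ∀ l, X ^ (g + 1) ∣ al 𝒜 e R C K l - al 𝒜 e R C (Low 𝒜 K g) l := by
    intro l
    have h3 : X ^ g ∣ al 𝒜 e R C K l - al 𝒜 e R C (Low 𝒜 K g) l := by
      simp only [al, Matrix.mulVec, dotProduct, ← Finset.sum_sub_distrib, ← mul_sub]
      exact Finset.dvd_sum fun i _ => (h1 i).mul_left _
    rw [X_pow_dvd_iff] at h3 ⊢
    intro j hj
    rcases (Nat.lt_succ_iff.1 hj).eq_or_lt with rfl | hj
    · rw [coeff_sub, hc', hb l j le_rfl, sub_self]
    · exact h3 j hj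
  have h3 : ∀ i, VV 𝒜 (Low 𝒜 K g) (e i) g = VV 𝒜 K (e i) g := by
    intro i
    have h4 : X ^ (g + 1) ∣ dv 𝒜 R K (e i) - dv 𝒜 R (Low 𝒜 K g) (e i) := by
      rw [H.mul_al, H.mul_al, ← Finset.sum_sub_distrib]
      exact Finset.dvd_sum fun l _ => by
        rw [← mul_sub]
        exact (h2 l).mul_left _
    have h5 := X_pow_dvd_iff.1 h4 g (by omega)
    rw [coeff_sub, coeff_dv 𝒜 H.hR, coeff_dv 𝒜 H.hR, sub_eq_zero] at h5
    exact Submodule.eq_of_le_of_finrank_eq (fun u hu => ⟨low_le 𝒜 K g hu.1, hu.2⟩)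
      (by exact_mod_cast h5.symm)
  refine hg' (hg.trans (Submodule.span_le.2 ?_))
  rintro u ⟨hu, j, hj, hd⟩
  rcases (Nat.lt_succ_iff.1 hj).eq_or_lt with rfl | hj
  · rw [← one_mul u, ← H.he.complete, Finset.sum_mul]
    refine Submodule.sum_mem _ fun i _ => ?_
    have h4 : e i * u ∈ VV 𝒜 K (e i) j := ⟨K.smul_mem _ hu,
      by simpa using SetLike.mul_mem_graded (e_mem 𝒜 H.h0 i) hd,
      by rw [← mul_assoc, (H.he.idem i).eq]⟩
    rw [← h3] at h4
    exact h4.1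
  · exact Submodule.subset_span ⟨hu, j, hj, hd⟩

theorem Hyp.projective [FiniteDimensional k A] (H : Hyp 𝒜 e R C) (K : Submodule A A)
    (hK : Gr 𝒜 K) : Module.Projective A K := by
  classical
  have : IsArtinian A A := isArtinian_of_tower k inferInstance
  induction K using WellFoundedLT.induction with
  | ind K ih =>
    have hex : ∃ g, K ≤ Low 𝒜 K g := ⟨R, fun u hu => by
      rw [← sum_pr 𝒜 H.hR u]
      exact Submodule.sum_mem _ fun j hj =>
        Submodule.subset_span ⟨hK u hu j, j, Finset.mem_range.1 hj, pr_mem 𝒜 j u⟩⟩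
    have h1 := Nat.find_spec hex
    by_cases h2 : Nat.find hex = 0
    · rw [h2] at h1
      have h3 : K = ⊥ := eq_bot_iff.2 (h1.trans (Submodule.span_le.2 fun u hu => by
        obtain ⟨-, j, hj, -⟩ := hu
        omega))
      rw [h3]
      infer_instance
    obtain ⟨g, hg⟩ : ∃ g, Nat.find hex = g + 1 := ⟨Nat.find hex - 1, by omega⟩
    rw [hg] at h1
    obtain ⟨p, hp⟩ := H.coeff_ne h1 (Nat.find_min hex (by omega))
    obtain ⟨φ, hφ, hφ0⟩ := H.top hK g (fun l s hs => H.bound hK h1 l s hs) p hp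
    obtain ⟨u, hu, hu0⟩ : ∃ u : K, (u : A) ∈ 𝒜 g ∧ φ u ≠ 0 := by
      by_contra hc
      refine hφ0 (map_eq_zero_of_low 𝒜 h1 φ fun j hj u hu => ?_)
      rcases (Nat.lt_succ_iff.1 hj).eq_or_lt with rfl | hj
      · by_contra h3
        exact hc ⟨u, hu, h3⟩
      · exact HH_low 𝒜 hφ hj u hu
    have h3 := hφ g u hu
    have hz0 : pz 𝒜 0 = pr 𝒜 0 := pz_nat 𝒜 0
    rw [add_neg_cancel, hz0] at h3
    obtain ⟨c, -, hc⟩ := scal 𝒜 H.he H.h0 p (h3.1 ▸ pr_mem 𝒜 0 (φ u))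
    rw [h3.2] at hc
    have hc0 : c ≠ 0 := fun h => hu0 (by rw [hc, h, zero_smul])
    obtain ⟨u₀, hu₀⟩ : ∃ u₀ : K, φ u₀ = e p := ⟨algebraMap k A c⁻¹ • u, by
      rw [map_smul, hc, algebraMap_smul, smul_smul, inv_mul_cancel₀ hc0, one_smul]⟩
    have h4 : ∀ v : K, φ v * e p = φ v := fun v =>
      hK.ind 𝒜 H.hR (P := fun v => φ v * e p = φ v) (by simp)
        (fun x y hx hy => by rw [map_add, add_mul, hx, hy]) (fun n v hv => (hφ n v hv).2) v
    have h5 : ∀ (v : K) (j : ℕ), φ ⟨pr 𝒜 j v, hK v v.2 j⟩ = pz 𝒜 (j + -(g : ℤ)) (φ v) := by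
      intro v j
      refine hK.ind 𝒜 H.hR (P := fun v =>
        φ ⟨pr 𝒜 j v, hK v v.2 j⟩ = pz 𝒜 (j + -(g : ℤ)) (φ v)) ?_ ?_ ?_ v
      · rw [map_zero, map_zero, ← map_zero φ]
        exact congrArg φ (Subtype.ext (map_zero _))
      · intro x y hx hy
        rw [map_add, map_add, ← hx, ← hy, ← map_add]
        exact congrArg φ (Subtype.ext (map_add _ _ _))
      · intro n v hv
        by_cases hn : n = j
        · subst hn
          rw [(hφ n v hv).1]
          exact congrArg φ (Subtype.ext (pr_same 𝒜 hv))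
        · rw [← (hφ n v hv).1, pz_pz_ne 𝒜 (by omega), ← map_zero φ]
          exact congrArg φ (Subtype.ext (pr_ne 𝒜 hv hn))
    have hgr : Gr 𝒜 ((LinearMap.ker φ).map K.subtype) := by
      rintro _ ⟨v, hv, rfl⟩ j
      refine ⟨⟨pr 𝒜 j v, hK v v.2 j⟩, ?_, rfl⟩
      have h6 : φ v = 0 := hv
      change φ _ = 0
      rw [h5, h6, map_zero]
    have hlt : (LinearMap.ker φ).map K.subtype < K := by
      refine lt_of_le_of_ne (Submodule.map_subtype_le _ _) fun h => hu0 ?_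
      have h6 : (u : A) ∈ (LinearMap.ker φ).map K.subtype := by
        rw [h]
        exact u.2
      obtain ⟨v, hv, h7⟩ := h6
      rw [← Subtype.ext h7]
      exact hv
    have h6 := ih _ hlt hgr
    have h7 : Module.Projective A (LinearMap.ker φ) := Module.Projective.of_equiv
      (Submodule.equivMapOfInjective K.subtype (Submodule.injective_subtype K) _).symm
    have hm : ∀ v : K, (LinearMap.id - LinearMap.toSpanSingleton A K u₀ ∘ₗ φ : K →ₗ[A] K) v ∈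
        LinearMap.ker φ := by
      intro v
      simp [hu₀, h4]
    refine Module.Projective.of_split (M := LinearMap.ker φ × A)
      (LinearMap.prod (LinearMap.codRestrict _ _ hm) φ)
      ((LinearMap.ker φ).subtype.coprod (LinearMap.toSpanSingleton A K u₀)) ?_
    ext v
    simp

end Pool.Agent.MP_92f1cb_al.H22G
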