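import Pool.Agent.MP_92f1cb_al.H22G.G4
import Pool.Agent.MP_92f1cb_al.H14.K3

/-! Cartan determinant one and the extension property give projective dimension at most one. -/

set_option autoImplicit false

namespace Pool.Agent.MP_92f1cb_al.H22G

open Polynomial CategoryTheory

theorem pd_le_one (k : Type) [Field k] (A : Type) [Ring A] [Algebra k A]
    [FiniteDimensional k A] (𝒜 : ℕ → Submodule k A) [GradedAlgebra 𝒜]
    (ι : Type) [Fintype ι] [DecidableEq ι] (e : ι → A) (he : CompleteOrthogonalIdempotents e)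
    (hne : ∀ i, e i ≠ 0) (h0 : 𝒜 0 = Submodule.span k (Set.range e))
    (C : Matrix ι ι ℤ[X])
    (hC : ∀ i j d, (C i j).coeff d = (Module.finrank k
      ((𝒜 d).map (LinearMap.mulLeft k (e i) ∘ₗ LinearMap.mulRight k (e j))) : ℤ))
    (hdet : C.det = 1) (hE : Extends A) (M : ModuleCat.{0} A) :
    HasProjectiveDimensionLE M 1 := by
  obtain ⟨r, hr⟩ := H14.K3.top_deg 𝒜
  have H : Hyp 𝒜 e (r + 1) C := by
    refine ⟨hE, he, hne, h0, hr, fun i j => ?_, hdet⟩
    ext d
    have h1 : (𝒜 d).map (LinearMap.mulLeft k (e i) ∘ₗ LinearMap.mulRight k (e j)) =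
        VV 𝒜 (PP (e j)) (e i) d := by
      ext z
      constructor
      · rintro ⟨a, ha, rfl⟩
        refine ⟨?_, ?_, ?_⟩
        · change e i * (a * e j) * e j = e i * (a * e j)
          rw [mul_assoc, mul_assoc, (he.idem j).eq]
        · change e i * (a * e j) ∈ 𝒜 d
          simpa using SetLike.mul_mem_graded (e_mem 𝒜 h0 i)
            (SetLike.mul_mem_graded ha (e_mem 𝒜 h0 j))
        · change e i * (e i * (a * e j)) = e i * (a * e j)
          rw [← mul_assoc, (he.idem i).eq]
      · intro hz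
        have h2 : z * e j = z := hz.1
        refine ⟨z, hz.2.1, ?_⟩
        change e i * (z * e j) = z
        rw [h2, hz.2.2]
    rw [hC, coeff_dv 𝒜 hr, h1]
  let J : Submodule A A := Submodule.span A {a : A | ∃ j, 0 < j ∧ a ∈ 𝒜 j}
  have hJ : Module.Projective A J :=
    H.projective J (gr_span 𝒜 fun u hu => ⟨_, hu.choose_spec.2⟩)
  let Q : ℕ → Submodule A A := fun n => if n = 0 then ⊤ else if n = 1 then J else ⊥
  have hQ : ∀ n, Q (n + 1) ≤ Q n := by
    intro n
    rcases n with _ | _ | n
    · exact le_top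
    · exact bot_le
    · exact le_rfl
  have hP : ∀ n, Module.Projective A (Q n) := by
    intro n
    rcases n with _ | _ | n
    · exact Module.Projective.of_equiv (Submodule.topEquiv (R := A) (M := A)).symm
    · exact hJ
    · exact inferInstanceAs (Module.Projective A (⊥ : Submodule A A))
  have hS : ∀ n, 1 < n → Subsingleton (Q n) := by
    intro n hn
    obtain ⟨n, rfl⟩ : ∃ m, n = m + 2 := ⟨n - 2, by omega⟩
    exact inferInstanceAs (Subsingleton (⊥ : Submodule A A))
  refine H14.pd_le_of_resolution k A 𝒜 ι e he h0 (fun n => Q n)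
    (fun n => Submodule.inclusion (hQ n)) (fun n y => ?_) (J.mkQ ∘ₗ (Q 0).subtype)
    (fun y => ?_) (fun y => ?_) 1 hS M
  · have := hS (n + 1 + 1) (by omega)
    rw [map_eq_zero_iff _ (Submodule.inclusion_injective _)]
    constructor
    · rintro rfl
      exact ⟨0, map_zero _⟩
    · rintro ⟨x, rfl⟩
      rw [Subsingleton.elim x 0, map_zero]
  · rw [LinearMap.comp_apply, Submodule.mkQ_apply, Submodule.Quotient.mk_eq_zero]
    constructor
    · intro h
      exact ⟨⟨y, h⟩, rfl⟩
    · rintro ⟨x, rfl⟩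
      exact x.2
  · obtain ⟨x, rfl⟩ := J.mkQ_surjective y
    exact ⟨⟨x, Submodule.mem_top⟩, rfl⟩

end Pool.Agent.MP_92f1cb_al.H22G
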