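import Mathlib

set_option autoImplicit false

namespace Pool.Agent.MP_92f1cb_al.H22G

/-- `A` has injective dimension at most one as a left module over itself: it embeds in an
injective module with injective quotient. -/
def InjDimLEOne (A : Type) [Ring A] : Prop :=
  ∃ (I : Type) (_ : AddCommGroup I) (_ : Module A I) (f : A →ₗ[A] I),
    Function.Injective f ∧ Module.Injective A I ∧ Module.Injective A (I ⧸ LinearMap.range f)

end Pool.Agent.MP_92f1cb_al.H22G
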